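import Mathlib

set_option autoImplicit false

namespace Pool.Agent.Results.MP_1d13cc_al.Counterexample

/-- A submonoid of `ℤ² ⋊ ℤ`, where the generator acts by `(x, y) ↦ (x, y) + 2 (x - y) (1, 1)`. -/
@[ext] structure M where
  x : ℤ
  y : ℤ
  d : ℕ
  h : d = 0 → 0 ≤ x ∧ 0 ≤ y

instance : Monoid M where
  mul a b := ⟨a.x + b.x + 2 * a.d * (b.x - b.y), a.y + b.y + 2 * a.d * (b.x - b.y), a.d + b.d,
    fun h => by
      have h1 := a.h (by omega)
      have h2 := b.h (by omega)
      simp only [show a.d = 0 by omega]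
      omega⟩
  one := ⟨0, 0, 0, fun _ => ⟨le_rfl, le_rfl⟩⟩
  mul_assoc a b c := by
    refine M.ext ?_ ?_ (add_assoc _ _ _) <;> simp only [HMul.hMul, Mul.mul] <;>
      simp only [Int.mul_def] <;> push_cast <;> ring
  one_mul a := by
    refine M.ext ?_ ?_ (zero_add _) <;> simp only [HMul.hMul, Mul.mul, OfNat.ofNat, One.one] <;>
      simp
  mul_one a := by
    refine M.ext ?_ ?_ (add_zero _) <;> simp only [HMul.hMul, Mul.mul, OfNat.ofNat, One.one] <;>
      simp

lemma mul_x (a b : M) : (a * b).x = a.x + b.x + 2 * a.d * (b.x - b.y) := rfl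
lemma mul_y (a b : M) : (a * b).y = a.y + b.y + 2 * a.d * (b.x - b.y) := rfl
lemma mul_d (a b : M) : (a * b).d = a.d + b.d := rfl

def rk (a : M) : ℕ ×ₗ ℕ := toLex (a.d, if a.d = 0 then (a.x + a.y).toNat else 0)

/-- The principal two-sided ideal `HaH`. -/
def tI {H : Type} [Monoid H] (a : H) : Set H := {z | ∃ x y, z = x * a * y}

lemma step (a b : M) (h : tI a ⊂ tI b) : rk b < rk a := by
  obtain ⟨u, v, e⟩ := h.1 (⟨1, 1, by simp⟩ : a ∈ tI a)
  have hb : ∀ p q, b ≠ p * a * q := fun p q hpq => h.2 (by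
    rintro _ ⟨s, t, rfl⟩
    exact ⟨s * p, q * t, by rw [hpq]; simp only [mul_assoc]⟩)
  have hd := congrArg M.d e
  have hx := congrArg M.x e
  have hy := congrArg M.y e
  simp only [mul_d, mul_x, mul_y] at hd hx hy
  rw [rk, rk, Prod.Lex.toLex_lt_toLex]
  by_cases h1 : b.d < a.d
  · exact Or.inl h1
  have h2 : b.d = a.d := by omega
  refine Or.inr ⟨h2, ?_⟩
  by_cases h0 : a.d = 0
  · have hu := u.h (by omega)
    have hv := v.h (by omega)
    have hb' := b.h (by omega)
    simp only [show u.d = 0 by omega, show b.d = 0 by omega] at hx hy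
    simp only [h0, h2, if_true]
    by_contra hc
    exact hb 1 1 (by rw [one_mul, mul_one]; exact M.ext (by omega) (by omega) h2)
  · exfalso
    obtain ⟨k, hk⟩ : ∃ k : ℕ, (k : ℤ) = |b.x - a.x| + |b.y - a.y| := ⟨_, Int.toNat_of_nonneg (by positivity)⟩
    have h3 : (1 : ℤ) ≤ a.d := by omega
    have h4 := neg_abs_le (b.x - a.x)
    have h5 := neg_abs_le (b.y - a.y)
    have h6 := abs_nonneg (b.x - a.x)
    have h7 := abs_nonneg (b.y - a.y)
    refine hb ⟨b.x - a.x + 2 * a.d * k, b.y - a.y + 2 * a.d * k - k, 0, fun _ => ⟨?_, ?_⟩⟩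
      ⟨0, k, 0, fun _ => ⟨le_rfl, by positivity⟩⟩ (M.ext ?_ ?_ ?_)
    · nlinarith
    · nlinarith
    · simp only [mul_d, mul_x]; push_cast; ring
    · simp only [mul_d, mul_y]; push_cast; ring
    · simp [mul_d, h2]

/-- A unit-cancellative monoid with the ACCP that is not acyclic. -/
theorem result : ∃ (H : Type) (_ : Monoid H),
    (∀ x y : H, ¬ IsUnit y → x * y ≠ x ∧ y * x ≠ x) ∧
    (¬ ∃ a : ℕ → H, ∀ n, tI (a n) ⊂ tI (a (n + 1))) ∧
    ∃ u v x : H, (¬ IsUnit u ∨ ¬ IsUnit v) ∧ u * x * v = x := by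
  refine ⟨M, inferInstance, fun a b hb => ⟨fun e => hb ?_, fun e => hb ?_⟩, ?_,
    ⟨2, 1, 0, by omega⟩, ⟨0, 1, 0, by omega⟩, ⟨0, 0, 1, by omega⟩, Or.inl ?_, M.ext rfl rfl rfl⟩
  · have hd := congrArg M.d e
    have hx := congrArg M.x e
    have hy := congrArg M.y e
    simp only [mul_d, mul_x, mul_y] at hd hx hy
    have h1 : b.x - b.y = 0 := by linarith
    rw [h1] at hx hy
    rw [show b = 1 from M.ext (by change _ = 0; omega) (by change _ = 0; omega)
      (by change _ = 0; omega)]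
    exact isUnit_one
  · have hd := congrArg M.d e
    have hx := congrArg M.x e
    have hy := congrArg M.y e
    simp only [mul_d, mul_x, mul_y] at hd hx hy
    simp only [show b.d = 0 by omega] at hx hy
    rw [show b = 1 from M.ext (by change _ = 0; omega) (by change _ = 0; omega)
      (by change _ = 0; omega)]
    exact isUnit_one
  · rintro ⟨a, ha⟩
    exact (RelEmbedding.natGT (fun n => rk (a n)) fun n => step _ _ (ha n)).not_wellFounded
      wellFounded_lt
  · intro hu
    obtain ⟨w, hw⟩ := hu.exists_right_inv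
    have hd : 0 + w.d = 0 := congrArg M.d hw
    have hx : 2 + w.x + 2 * (0 : ℕ) * (w.x - w.y) = 0 := congrArg M.x hw
    have := w.h (by omega)
    omega

end Pool.Agent.Results.MP_1d13cc_al.Counterexample
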